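import Pool.Agent.Helper77.CR.Defs

/-! Dimension of the space of flows. -/

namespace Pool.Agent.Helper77.CR

open Pool.Agent.Helper9.FA (Item Cor Ang wfP labels)
open Pool.Agent.Helper28.TX (PV Pot)

variable {α : Type}

private theorem flow_map {K K' : Type} [AddCommGroup K] [Module ℝ K] [AddCommGroup K'] [Module ℝ K']
    (ψ : K →ₗ[ℝ] K') {P : List (Item α)} {d ys : List K} (h : Fl P d ys) :
    Fl P (d.map ψ) (ys.map ψ) := by
  induction h with
  | nil => simpa using (Fl.nil (α := α) (K := K'))
  | @cup P l r ys x y h ih =>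
    simp only [List.map_append, List.map_cons, map_zero, map_add] at ih ⊢
    have := Fl.cup (l := l.map ψ) ih
    simpa using this
  | @cap P l r ys x y h ih =>
    simp only [List.map_append, List.map_cons, map_zero, map_add] at ih ⊢
    have := Fl.cap (l := l.map ψ) ih
    simpa using this
  | @box P l r ys x y a h ih =>
    simp only [List.map_append, List.map_cons, map_zero] at ih ⊢
    have := Fl.box (l := l.map ψ) (a := a) ih
    simpa using this

/-- zero at the `false` places -/
private def Z {K : Type} [AddCommGroup K] (c : List Bool) (d : List K) : Prop :=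
  List.Forall₂ (fun (b : Bool) (x : K) => b = false → x = 0) c d

private theorem Z_map {K K' : Type} [AddCommGroup K] [Module ℝ K] [AddCommGroup K'] [Module ℝ K']
    (ψ : K →ₗ[ℝ] K') {c : List Bool} {d : List K} (h : Z c d) : Z c (d.map ψ) := by
  induction h with
  | nil => exact List.Forall₂.nil
  | cons h _ ih => exact List.Forall₂.cons (fun hb => by rw [h hb, map_zero]) ih

private theorem Z_append {K : Type} [AddCommGroup K] {c c' : List Bool} {d d' : List K}
    (h : Z c d) (h' : Z c' d') : Z (c ++ c') (d ++ d') := by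
  induction h with
  | nil => exact h'
  | cons h _ ih => exact List.Forall₂.cons h ih

private theorem Z_split {K : Type} [AddCommGroup K] {c c' : List Bool} {d : List K}
    (h : Z (c ++ c') d) : ∃ d1 d2, d = d1 ++ d2 ∧ d1.length = c.length ∧ Z c d1 ∧ Z c' d2 := by
  induction c generalizing d with
  | nil => exact ⟨[], d, rfl, rfl, List.Forall₂.nil, h⟩
  | cons b c ih =>
    cases h with
    | cons hb hc =>
      obtain ⟨d1, d2, rfl, h1, h2, h3⟩ := ih hc
      exact ⟨_ :: d1, d2, rfl, by simp [h1], List.Forall₂.cons hb h2, h3⟩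

private theorem Z_zero {K : Type} [AddCommGroup K] {c : List Bool} {d : List K} (h : Z c d)
    (hc : ∀ b ∈ c, b = false) : d.sum = 0 := by
  induction h with
  | nil => rfl
  | cons h _ ih =>
    rw [List.sum_cons, h (hc _ (List.mem_cons_self ..)),
      ih (fun b hb => hc b (List.mem_cons_of_mem _ hb)), zero_add]

private def GD (P : List (Item α)) (c : List Bool) (E : ℤ) (Tr : Prop) : Prop :=
  ∃ (K : Type) (_ : AddCommGroup K) (_ : Module ℝ K) (_ : FiniteDimensional ℝ K)
      (d ys : List K), Fl P d ys ∧ Z c d ∧
      d.sum = 0 ∧ (∀ ψ : K →ₗ[ℝ] ℝ, (∀ y ∈ ys, ψ y = 0) → ψ = 0) ∧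
      E ≤ Module.finrank ℝ K ∧
      ((∀ b ∈ c, b = false) → Tr → 1 + E ≤ Module.finrank ℝ K)

private theorem kill {P : List (Item α)} {l r : List Bool} {a m b : Bool} {E : ℤ} {Tr : Prop}
    (h : GD P (l ++ a :: m :: b :: r) E Tr) :
    ∃ (K : Type) (_ : AddCommGroup K) (_ : Module ℝ K) (_ : FiniteDimensional ℝ K)
      (dl dr ys : List K) (x y : K), Fl P (dl ++ x :: 0 :: y :: dr) ys ∧ dl.length = l.length ∧
      Z l dl ∧ (a = false → x = 0) ∧ (b = false → y = 0) ∧ Z r dr ∧
      (dl ++ x :: 0 :: y :: dr).sum = 0 ∧
      (∀ ψ : K →ₗ[ℝ] ℝ, (∀ y ∈ ys, ψ y = 0) → ψ = 0) ∧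
      E - bz m ≤ Module.finrank ℝ K ∧
      ((∀ b' ∈ l ++ a :: b :: r, b' = false) → (Tr ∨ m = true) →
        1 + (E - bz m) ≤ Module.finrank ℝ K) := by
  obtain ⟨K, _, _, _, d, ys, hF, hZ, hs, hψ, hE, hT⟩ := h
  obtain ⟨dl, d2, rfl, hl, hZl, hZ2⟩ := Z_split hZ
  cases hZ2 with
  | @cons _ x _ d3 hx hZ3 =>
  cases hZ3 with
  | @cons _ w _ d4 hw hZ4 =>
  cases hZ4 with
  | @cons _ y _ dr hy hZr =>
  cases m with
  | false =>
    have hw0 := hw rfl
    subst hw0
    refine ⟨K, _, _, inferInstance, dl, dr, ys, x, y, hF, hl, hZl, hx, hy, hZr, hs, hψ,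
      by simpa [bz] using hE, ?_⟩
    intro h1 h2
    have h3 : Tr := by simpa using h2
    have := hT (by
      intro b' hb'
      simp only [List.mem_append, List.mem_cons] at hb' h1
      rcases hb' with hb' | hb' | hb' | hb' | hb'
      · exact h1 _ (Or.inl hb')
      · exact h1 _ (Or.inr (Or.inl hb'))
      · exact hb'
      · exact h1 _ (Or.inr (Or.inr (Or.inl hb')))
      · exact h1 _ (Or.inr (Or.inr (Or.inr hb')))) h3
    simpa [bz] using this
  | true =>
    by_cases hall : ∀ b' ∈ l ++ a :: b :: r, b' = false
    · have hx0 : x = 0 := hx (hall _ (by simp))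
      have hy0 : y = 0 := hy (hall _ (by simp))
      have hl0 : dl.sum = 0 := Z_zero hZl (fun b' hb' => hall _ (by simp [hb']))
      have hr0 : dr.sum = 0 := Z_zero hZr (fun b' hb' => hall _ (by simp [hb']))
      have hw0 : w = 0 := by
        simp only [List.sum_append, List.sum_cons, hl0, hr0, hx0, hy0] at hs
        simpa using hs
      subst hw0
      refine ⟨K, _, _, inferInstance, dl, dr, ys, x, y, hF, hl, hZl, hx, hy, hZr, hs, hψ, ?_, ?_⟩
      · simp only [bz, if_true]; omega
      · intro _ _
        simp only [bz, if_true]; omega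
    · let S : Submodule ℝ K := Submodule.span ℝ {w}
      have hws : S.mkQ w = 0 := by
        rw [Submodule.mkQ_apply, Submodule.Quotient.mk_eq_zero]
        exact Submodule.mem_span_singleton_self w
      have hfr : (Module.finrank ℝ K : ℤ) ≤ Module.finrank ℝ (K ⧸ S) + 1 := by
        have h1 := Submodule.finrank_quotient_add_finrank S
        have h2 : Module.finrank ℝ S ≤ 1 := (finrank_span_le_card ({w} : Set K)).trans (by simp)
        omega
      have hF' := flow_map S.mkQ hF
      simp only [List.map_append, List.map_cons, hws] at hF'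
      refine ⟨K ⧸ S, inferInstance, inferInstance, inferInstance, dl.map S.mkQ, dr.map S.mkQ,
        ys.map S.mkQ, S.mkQ x, S.mkQ y, hF', by simpa using hl, Z_map _ hZl, ?_, ?_, Z_map _ hZr,
        ?_, ?_, ?_, ?_⟩
      · intro ha; rw [hx ha, map_zero]
      · intro ha; rw [hy ha, map_zero]
      · have := congrArg S.mkQ hs
        rw [map_list_sum, map_zero] at this
        simpa [hws] using this
      · intro ψ hψ'
        have : ψ.comp S.mkQ = 0 := hψ _ (by
          intro y hy
          exact hψ' _ (List.mem_map_of_mem hy))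
        ext z
        exact congrFun (congrArg DFunLike.coe this) z
      · simp only [bz, if_true]; omega
      · intro h1 _
        exact absurd h1 hall

theorem flow_dim {P : List (Item α)} {g0 g1 : Bool} {c : List Bool} {θ : List (PV Bool)}
    {e : List (Bool × Bool × Bool)} (h : Pot g0 g1 P c θ e) :
    ∃ (K : Type) (_ : AddCommGroup K) (_ : Module ℝ K) (_ : FiniteDimensional ℝ K)
      (d ys : List K), Fl P d ys ∧ List.Forall₂ (fun (b : Bool) (x : K) => b = false → x = 0) c d ∧
      d.sum = 0 ∧ (∀ ψ : K →ₗ[ℝ] ℝ, (∀ y ∈ ys, ψ y = 0) → ψ = 0) ∧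
      -EU θ e ≤ Module.finrank ℝ K ∧
      ((∀ b ∈ c, b = false) → Tru θ e → 1 - EU θ e ≤ Module.finrank ℝ K) := by
  suffices hG : GD P c (-EU θ e) (Tru θ e) by
    obtain ⟨K, i1, i2, i3, d, ys, h1, h2, h3, h4, h5, h6⟩ := hG
    refine ⟨K, i1, i2, i3, d, ys, h1, h2, h3, h4, h5, fun ha hb => ?_⟩
    have := h6 ha hb
    omega
  induction h with
  | nil =>
    refine ⟨PUnit, inferInstance, inferInstance, inferInstance, [0, 0], [], Fl.nil, ?_, ?_, ?_, ?_,
      ?_⟩
    · exact List.Forall₂.cons (fun _ => rfl) (List.Forall₂.cons (fun _ => rfl) List.Forall₂.nil)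
    · simp
    · intro ψ _
      exact Subsingleton.elim _ _
    · simp [EU]
    · rintro _ (⟨q, hq, _⟩ | ⟨y, hy, _⟩)
      · simp at hq
      · simp at hy
  | @cup P l r a m θ e h ih =>
    obtain ⟨K, i1, i2, i3, dl, dr, ys, x, y, hF, hl, hZl, hx, hy, hZr, hs, hψ, hE, hT⟩ := kill ih
    have hEU : -EU θ ((true, a, m) :: e) = -EU θ e - bz m := by
      simp only [EU, List.map_cons, List.sum_cons, if_true]; ring
    refine ⟨K, i1, i2, i3, dl ++ (x + y) :: dr, ys, ?_, ?_, ?_, hψ, ?_, ?_⟩
    · rw [← hl]; exact Fl.cup hF
    · exact Z_append hZl (List.Forall₂.cons (fun ha => by rw [hx ha, hy ha, add_zero]) hZr)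
    · refine Eq.trans ?_ hs
      simp only [List.sum_append, List.sum_cons]
      abel
    · rw [hEU]; exact hE
    · intro h1 h2
      rw [hEU]
      refine hT ?_ ?_
      · intro b' hb'
        simp only [List.mem_append, List.mem_cons] at hb' h1
        rcases hb' with hb' | hb' | hb' | hb'
        · exact h1 _ (Or.inl hb')
        · exact h1 _ (Or.inr (Or.inl hb'))
        · exact h1 _ (Or.inr (Or.inl hb'))
        · exact h1 _ (Or.inr (Or.inr hb'))
      · rcases h2 with h2 | ⟨y', hy', h2⟩
        · exact Or.inl (Or.inl h2)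
        · rcases List.mem_cons.1 hy' with rfl | hy'
          · rcases h2 with h2 | h2
            · simp only at h2
              have := h1 a (by simp)
              rw [this] at h2
              exact absurd h2 (by decide)
            · exact Or.inr h2
          · exact Or.inl (Or.inr ⟨y', hy', h2⟩)
  | @cap P l r a m θ e h ih =>
    obtain ⟨K, i1, i2, i3, d, ys, hF, hZ, hs, hψ, hE, hT⟩ := ih
    obtain ⟨dl, d2, rfl, hl, hZl, hZ2⟩ := Z_split hZ
    cases hZ2 with
    | @cons _ x _ dr hx hZr =>
    have hEU : -EU θ ((false, a, m) :: e) = -EU θ e + bz a := by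
      simp only [EU, List.map_cons, List.sum_cons, Bool.false_eq_true, if_false]; ring
    cases a with
    | false =>
      have hx0 := hx rfl
      subst hx0
      refine ⟨K, i1, i2, i3, dl ++ 0 :: 0 :: 0 :: dr, 0 :: 0 :: ys, ?_, ?_, ?_, ?_, ?_, ?_⟩
      · rw [← hl]
        refine Fl.cap ?_
        rw [add_zero]; exact hF
      · exact Z_append hZl (List.Forall₂.cons (fun _ => rfl) (List.Forall₂.cons (fun _ => rfl)
          (List.Forall₂.cons (fun _ => rfl) hZr)))
      · refine Eq.trans ?_ hs
        simp only [List.sum_append, List.sum_cons]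
        abel
      · intro ψ h1
        exact hψ ψ (fun y hy => h1 y (by simp [hy]))
      · rw [hEU]; simpa [bz] using hE
      · intro h1 h2
        rw [hEU]
        have := hT (by
          intro b' hb'
          simp only [List.mem_append, List.mem_cons] at hb' h1
          rcases hb' with hb' | hb' | hb'
          · exact h1 _ (Or.inl hb')
          · exact hb'
          · exact h1 _ (Or.inr (Or.inr (Or.inr (Or.inr hb'))))) (by
          rcases h2 with h2 | ⟨y', hy', h2⟩
          · exact Or.inl h2
          · rcases List.mem_cons.1 hy' with rfl | hy'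
            · rcases h2 with h2 | h2
              · simp at h2
              · simp only at h2
                have := h1 m (by simp)
                rw [this] at h2
                exact absurd h2 (by decide)
            · exact Or.inr ⟨y', hy', h2⟩)
        simpa [bz] using this
    | true =>
      let ι : K →ₗ[ℝ] K × ℝ := LinearMap.inl ℝ K ℝ
      have hF' := flow_map ι hF
      simp only [List.map_append, List.map_cons] at hF'
      refine ⟨K × ℝ, inferInstance, inferInstance, inferInstance,
        dl.map ι ++ (0, 1) :: 0 :: (x, -1) :: dr.map ι, (0, 1) :: (x, -1) :: ys.map ι,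
        ?_, ?_, ?_, ?_, ?_, ?_⟩
      · have hl' : l.length = (dl.map ι).length := by simp [hl]
        rw [hl']
        refine Fl.cap ?_
        have : ((0, 1) : K × ℝ) + (x, -1) = ι x := by
          simp [ι]
        rw [this]; exact hF'
      · exact Z_append (Z_map _ hZl) (List.Forall₂.cons (fun h0 => by simp at h0)
          (List.Forall₂.cons (fun _ => rfl) (List.Forall₂.cons (fun h0 => by simp at h0)
            (Z_map _ hZr))))
      · have h1 := congrArg ι hs
        rw [map_list_sum, map_zero] at h1
        simp only [List.map_append, List.map_cons, List.sum_append, List.sum_cons] at h1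
        refine Eq.trans ?_ h1
        simp only [List.sum_append, List.sum_cons]
        have : ι x = ((0, 1) : K × ℝ) + (x, -1) := by
          simp [ι]
        rw [this]; abel
      · intro ψ h1
        have h2 : ψ.comp ι = 0 := hψ _ (by
          intro y hy
          exact h1 _ (by
            simp only [List.mem_cons]
            exact Or.inr (Or.inr (List.mem_map_of_mem hy))))
        have h3 : ψ (0, 1) = 0 := h1 _ (by simp)
        ext z
        · exact congrFun (congrArg DFunLike.coe h2) z
        · simpa using h3
      · rw [hEU, Module.finrank_prod, Module.finrank_self]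
        simp only [bz, if_true]
        push_cast
        omega
      · intro h1 _
        have := h1 true (by simp)
        simp at this
  | @box P l r x0 q θ e h ih =>
    obtain ⟨K, i1, i2, i3, dl, dr, ys, x, y, hF, hl, hZl, hx, hy, hZr, hs, hψ, hE, hT⟩ := kill ih
    have hEU : -EU (q :: θ) e = -EU θ e - bz q.T := by
      simp only [EU, List.map_cons, List.sum_cons]; ring
    refine ⟨K, i1, i2, i3, dl ++ x :: 0 :: y :: dr, ys, ?_, ?_, hs, hψ, ?_, ?_⟩
    · rw [← hl]; exact Fl.box hF
    · exact Z_append hZl (List.Forall₂.cons hx (List.Forall₂.cons (fun _ => rfl)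
        (List.Forall₂.cons hy hZr)))
    · rw [hEU]; exact hE
    · intro h1 h2
      rw [hEU]
      refine hT ?_ ?_
      · intro b' hb'
        simp only [List.mem_append, List.mem_cons] at hb' h1
        rcases hb' with hb' | hb' | hb' | hb'
        · exact h1 _ (Or.inl hb')
        · exact h1 _ (Or.inr (Or.inl hb'))
        · exact h1 _ (Or.inr (Or.inr (Or.inr (Or.inl hb'))))
        · exact h1 _ (Or.inr (Or.inr (Or.inr (Or.inr hb'))))
      · rcases h2 with ⟨q', hq', h2⟩ | h2
        · rcases List.mem_cons.1 hq' with rfl | hq'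
          · simp only [cor, List.mem_cons, List.not_mem_nil, or_false] at h2
            have hL := h1 q'.L (by simp)
            have hB := h1 q'.B (by simp)
            have hR := h1 q'.R (by simp)
            rw [hL, hB, hR] at h2
            right
            rcases h2 with h2 | h2 | h2 | h2
            · exact absurd h2 (by decide)
            · exact absurd h2 (by decide)
            · exact absurd h2 (by decide)
            · exact h2.symm
          · exact Or.inl (Or.inl ⟨q', hq', h2⟩)
        · exact Or.inl (Or.inr h2)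

end Pool.Agent.Helper77.CR
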